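import Pool.Agent.Helper93_ABCT.StmtK

/-! UTRD: the function field of a hypersurface in affine `(d+1)`-space has transcendence
degree `d`. -/

namespace Helper70ABCT

open MvPolynomial

theorem exists_mem_vars {n : ℕ} (h : MvPolynomial (Fin n) ℂ) (hh : Irreducible h) :
    ∃ j, degreeOf j h ≠ 0 := by
  by_contra hc
  push Not at hc
  have h1 : h.vars = ∅ := by
    ext j
    simp only [Finset.notMem_empty, iff_false]
    rw [mem_vars_iff_degreeOf_ne_zero]
    simpa using hc j
  rw [vars_eq_empty_iff_eq_C] at h1
  have h0 : h.coeff 0 ≠ 0 := by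
    intro h0
    rw [h0, C_0] at h1
    exact hh.ne_zero h1
  apply hh.not_isUnit
  rw [h1]
  exact (isUnit_iff_ne_zero.mpr h0).map C

theorem utrd : PosGeom.UtrdStmt := by
  intro d h hh L _ _ x hx htop
  have halg : Algebra.IsAlgebraic (Algebra.adjoin ℂ (Set.range x)) L := by
    constructor
    intro y
    have hy : y ∈ IntermediateField.adjoin ℂ (Set.range x) := by rw [htop]; trivial
    rw [IntermediateField.mem_adjoin_range_iff] at hy
    obtain ⟨r, s, rfl⟩ := hy
    have hm : ∀ P : MvPolynomial (Fin (d + 1)) ℂ,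
        IsAlgebraic (Algebra.adjoin ℂ (Set.range x)) (aeval x P) := by
      intro P
      have : aeval x P ∈ Algebra.adjoin ℂ (Set.range x) := by
        rw [Algebra.adjoin_range_eq_range_aeval]
        exact ⟨P, rfl⟩
      exact isAlgebraic_algebraMap (A := L) (⟨_, this⟩ : Algebra.adjoin ℂ (Set.range x))
    rw [div_eq_mul_inv]
    exact (hm r).mul (hm s).inv
  apply le_antisymm
  · by_contra hlt
    push Not at hlt
    have h2 : ((d + 1 : ℕ) : Cardinal) ≤ Algebra.trdeg ℂ L := by
      rw [Nat.cast_add, Nat.cast_one, ← Cardinal.succ_natCast]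
      exact Order.succ_le_of_lt hlt
    have h3 : IsTranscendenceBasis ℂ x := by
      apply Algebra.IsAlgebraic.isTranscendenceBasis_of_le_trdeg_of_finite
      simpa using h2
    have h4 : aeval x h = 0 := (hx h).mpr dvd_rfl
    exact hh.ne_zero ((algebraicIndependent_iff.mp h3.1) h h4)
  · obtain ⟨j, hj⟩ := exists_mem_vars h hh
    have hind : AlgebraicIndependent ℂ (fun k : {k : Fin (d + 1) // k ≠ j} => x k) := by
      rw [algebraicIndependent_iff]
      intro P hP
      by_contra hP0
      have h5 : aeval x (rename (Subtype.val : {k : Fin (d + 1) // k ≠ j} → Fin (d + 1)) P) = 0 := by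
        rw [aeval_rename]
        exact hP
      obtain ⟨q, hq⟩ := (hx _).mp h5
      have h6 : rename (Subtype.val : {k : Fin (d + 1) // k ≠ j} → Fin (d + 1)) P ≠ 0 := by
        intro h6
        exact hP0 ((map_eq_zero_iff _ (rename_injective _ Subtype.val_injective)).mp h6)
      have hq0 : q ≠ 0 := by
        rintro rfl
        rw [mul_zero] at hq
        exact h6 hq
      have h7 : degreeOf j (rename (Subtype.val : {k : Fin (d + 1) // k ≠ j} → Fin (d + 1)) P)
          = 0 := by
        by_contra hne
        rw [← ne_eq, ← mem_vars_iff_degreeOf_ne_zero] at hne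
        obtain ⟨k, _, hk⟩ := mem_vars_rename _ _ hne
        exact k.2 hk
      rw [hq, degreeOf_mul_eq hh.ne_zero hq0] at h7
      omega
    have h8 := hind.cardinalMk_le_trdeg
    have h9 : Cardinal.mk {k : Fin (d + 1) // k ≠ j} = (d : Cardinal) := by
      rw [Cardinal.mk_fintype]
      simp [Fintype.card_subtype_compl]
    rwa [h9] at h8

end Helper70ABCT
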